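import Mathlib
import Pool.Agent.H321R2.OSI.Counter
import Pool.Agent.H321R2.OSI.Lower
import Pool.Agent.H321R2.OSI.LowCoh
import Pool.Agent.H321R2.OSI.Unif

/-!
# Q1: with a constant failure probability the relative-error bound `1 + O(ε)` fails
-/

set_option autoImplicit false

namespace Pool.Agent.Results.MP_082b65_an.ConstantFailureFails

open MeasureTheory Matrix Finset Pool.Agent.H321R2.OSI

/-- The bound of Q1 with constants `C` and `p₀` for OSIs with the constant failure probability `δ`: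
for every `0 < ε < 1`, every real matrix `A` (`n × d`), every `1 ≤ r ≤ d` and every random `d × k`
matrix `S` that is an oblivious subspace injection with dimension `r`, injectivity `1 - ε` and
failure probability `δ`, there is an event `D` of probability at least `p₀` on which the randomized
SVD satisfies `‖A - Ã‖_F ≤ (1 + C ε) ‖A - A_r‖_F`. -/
def ConstBound (δ C p₀ : ℝ) : Prop :=
  ∀ ε : ℝ, 0 < ε → ε < 1 →
    ∀ (n d k r : ℕ), 1 ≤ r → r ≤ d → ∀ (A : Matrix (Fin n) (Fin d) ℝ)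
      (W : Type) (_ : MeasurableSpace W) (P : Measure W) (_ : IsProbabilityMeasure P)
      (S : W → Matrix (Fin d) (Fin k) ℝ), IsOSI P S r (1 - ε) δ →
        ∃ D : Set W, MeasurableSet D ∧ p₀ ≤ P.real D ∧
          ∀ w ∈ D, frob (A - rsvd A (S w)) ≤ (1 + C * ε) * bestErr A r

lemma bestErr_nonneg {n d : ℕ} (A : Matrix (Fin n) (Fin d) ℝ) (r : ℕ) : 0 ≤ bestErr A r := by
  unfold bestErr
  apply Real.sInf_nonneg
  rintro e ⟨B, _, rfl⟩
  exact Real.sqrt_nonneg _

/-- One random matrix, an OSI of dimension `1` with every injectivity `1 - ε`, `ε ≥ 0` (even with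
injectivity `1`), and failure probability `δ`, for which every outcome has relative error
at least `1 + c`. -/
theorem example_exists (δ : ℝ) (hδ : 0 < δ) :
    ∃ (c : ℝ) (_ : 0 < c) (d k : ℕ) (_ : 1 ≤ d) (A : Matrix (Fin d) (Fin d) ℝ)
      (W : Type) (_ : MeasurableSpace W) (P : Measure W) (_ : IsProbabilityMeasure P)
      (S : W → Matrix (Fin d) (Fin k) ℝ),
      (∀ ε : ℝ, 0 ≤ ε → IsOSI P S 1 (1 - ε) δ) ∧
      ∀ w, (1 + c) * bestErr A 1 < frob (A - rsvd A (S w)) := by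
  obtain ⟨K₀, hK₀⟩ := exists_nat_gt (2 / δ)
  set K : ℕ := K₀ + 2 with hKdef
  have hK : 2 ≤ K := by omega
  have hKr : (2 : ℝ) ≤ K := by exact_mod_cast hK
  have hδK : 2 ≤ δ * K := by
    have h1 : 2 < δ * (K₀ : ℝ) := by
      rw [div_lt_iff₀ hδ] at hK₀
      linarith
    have h2 : (K : ℝ) = K₀ + 2 := by rw [hKdef]; push_cast; ring
    rw [h2]
    nlinarith
  set s : ℝ := 1 / (2 * (K : ℝ) ^ 2) with hs
  have hs0 : 0 < s := by positivity
  have hs8 : s ≤ 1 / 8 := by
    rw [hs]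
    apply one_div_le_one_div_of_le (by norm_num)
    nlinarith
  obtain ⟨M, hM⟩ := exists_nat_gt (8 / s ^ 2)
  obtain ⟨p, hpM, hp⟩ := Nat.exists_infinite_primes (M + 2)
  haveI : Fact p.Prime := ⟨hp⟩
  have hpr : 8 / s ^ 2 + 2 ≤ (p : ℝ) := by
    have : ((M + 2 : ℕ) : ℝ) ≤ p := by exact_mod_cast hpM
    push_cast at this
    linarith
  have hps : 8 ≤ s ^ 2 * p := by
    have h1 : 8 / s ^ 2 ≤ (p : ℝ) := by linarith
    rw [div_le_iff₀ (by positivity)] at h1
    linarith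
  have hp2 : (2 : ℝ) ≤ p := by exact_mod_cast hp.two_le
  obtain ⟨w, hw1, hw2, hw3⟩ := exists_lowcoh p
  have hN : 0 < p ^ 3 := pow_pos hp.pos 3
  have hs2 : s ^ 2 ≤ 1 := by nlinarith
  have hcoh : 1 / ((p : ℝ) - 1) ≤ s - s ^ 2 := by
    have hp1 : (0 : ℝ) < (p : ℝ) - 1 := by linarith
    rw [div_le_iff₀ hp1]
    have h1 : 7 / 8 * s ≤ s - s ^ 2 := by nlinarith
    have h2 : 64 ≤ s * p := by nlinarith
    have h3 : 1 ≤ 7 / 8 * s * ((p : ℝ) - 1) := by nlinarith
    nlinarith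
  have hb1 : ∀ j, gram (brow s w) j j = 1 := by
    intro j
    refine Fin.cases ?_ (fun l => ?_) j
    · exact gram_brow_zero s w
    · rw [gram_brow_succ s hs2, hw1]; ring
  have hbμ : ∀ j l, j ≠ l → |gram (brow s w) j l| ≤ s := by
    intro j l
    refine Fin.cases ?_ (fun j' => ?_) j
    · refine Fin.cases ?_ (fun l' => ?_) l
      · intro h; exact absurd rfl h
      · intro _
        rw [gram_brow_zero_succ, abs_of_pos hs0]
    · refine Fin.cases ?_ (fun l' => ?_) l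
      · intro _
        rw [gram_symm, gram_brow_zero_succ, abs_of_pos hs0]
      · intro h
        have hne : j' ≠ l' := fun h' => h (by rw [h'])
        rw [gram_brow_succ s hs2]
        have h1 := hw2 j' l' hne
        have h2 : |(1 - s ^ 2) * ∑ i, w j' i * w l' i| ≤ s - s ^ 2 := by
          rw [abs_mul, abs_of_nonneg (by linarith : 0 ≤ 1 - s ^ 2)]
          have h3 : 0 ≤ |∑ i, w j' i * w l' i| := abs_nonneg _
          have h4 : |∑ i, w j' i * w l' i| ≤ s - s ^ 2 := h1.trans hcoh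
          nlinarith [sq_nonneg s]
        calc |s ^ 2 + (1 - s ^ 2) * ∑ i, w j' i * w l' i|
            ≤ |s ^ 2| + |(1 - s ^ 2) * ∑ i, w j' i * w l' i| := abs_add_le _ _
          _ ≤ s ^ 2 + (s - s ^ 2) := by
              rw [abs_of_nonneg (sq_nonneg s)]
              linarith
          _ = s := by ring
  have hμK : 2 * s ^ 2 * (K : ℝ) ^ 3 ≤ 1 := by
    have h1 : s * (2 * (K : ℝ) ^ 2) = 1 := by
      rw [hs]; field_simp
    have h2 : s * K ≤ 1 := by nlinarith
    calc 2 * s ^ 2 * (K : ℝ) ^ 3 = (s * (2 * (K : ℝ) ^ 2)) * (s * K) := by ring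
      _ ≤ 1 := by rw [h1]; linarith
  haveI : NeZero K := ⟨by omega⟩
  have hosi := fun (ε : ℝ) (hε : 0 ≤ ε) =>
    isOSI_Smat (K := K) hK (brow s w) hb1 s hbμ hμK δ hδK ε hε
  have hkN : (((p ^ 2 : ℕ) : ℝ) + 1) ≤ ((p ^ 3 : ℕ) : ℝ) * s ^ 2 / 4 := by
    push_cast
    have h1 : 2 * (p : ℝ) ^ 2 ≤ (p : ℝ) ^ 3 * s ^ 2 / 4 := by
      have h2 : 0 ≤ (p : ℝ) ^ 2 := by positivity
      calc 2 * (p : ℝ) ^ 2 = 8 * (p : ℝ) ^ 2 / 4 := by ring
        _ ≤ (s ^ 2 * p) * (p : ℝ) ^ 2 / 4 := by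
            apply div_le_div_of_nonneg_right _ (by norm_num)
            exact mul_le_mul_of_nonneg_right hps h2
        _ = _ := by ring
    nlinarith
  refine ⟨s ^ 2 / 16, by positivity, p ^ 3 + 1, p ^ 2 + 1, by omega, diagonal (avec (p ^ 3)),
    Smp K (p ^ 3 + 1), inferInstance, unif (Smp K (p ^ 3 + 1)), inferInstance,
    Smat K (brow s w), hosi, fun ω => ?_⟩
  have h1 := err_lower hK s (by linarith) hs0 w hw3 hN hkN ω
  have h2 := bestErr_le (p ^ 3)
  have hNr : (0 : ℝ) < ((p ^ 3 : ℕ) : ℝ) := by exact_mod_cast hN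
  set N : ℝ := ((p ^ 3 : ℕ) : ℝ) with hNdef
  have h3 : ((1 + s ^ 2 / 16) * Real.sqrt N) ^ 2 <
      frob (diagonal (avec (p ^ 3)) - rsvd (diagonal (avec (p ^ 3))) (Smat K (brow s w) ω)) ^ 2 := by
    refine lt_of_lt_of_le ?_ h1
    rw [mul_pow, Real.sq_sqrt hNr.le, mul_comm]
    apply mul_lt_mul_of_pos_left _ hNr
    nlinarith [pow_pos hs0 2]
  have h4 : (1 + s ^ 2 / 16) * Real.sqrt N <
      frob (diagonal (avec (p ^ 3)) - rsvd (diagonal (avec (p ^ 3))) (Smat K (brow s w) ω)) := by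
    refine lt_of_pow_lt_pow_left₀ 2 ?_ h3
    unfold frob
    exact Real.sqrt_nonneg _
  refine lt_of_le_of_lt ?_ h4
  exact mul_le_mul_of_nonneg_left h2 (by positivity)

/-- **Negative answer to Q1.** For every constant failure probability `δ > 0` (in particular
`δ = 1/100`), and whatever the constants `C` and `p₀ > 0` are, the bound of Q1 fails. Moreover
there are `c > 0`, a matrix `A` and one random matrix `S` which is an OSI of dimension `1`
with failure probability `δ` and with every injectivity `1 - ε`, `ε ≥ 0`, such that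
`‖A - Ã‖_F > (1 + c) ‖A - A_1‖_F` for every outcome. -/
theorem result (δ : ℝ) (hδ : 0 < δ) :
    (∀ C p₀ : ℝ, 0 < p₀ → ¬ ConstBound δ C p₀) ∧
    ∃ (c : ℝ) (_ : 0 < c) (d k : ℕ) (_ : 1 ≤ d) (A : Matrix (Fin d) (Fin d) ℝ)
      (W : Type) (_ : MeasurableSpace W) (P : Measure W) (_ : IsProbabilityMeasure P)
      (S : W → Matrix (Fin d) (Fin k) ℝ),
      (∀ ε : ℝ, 0 ≤ ε → IsOSI P S 1 (1 - ε) δ) ∧
      ∀ w, (1 + c) * bestErr A 1 < frob (A - rsvd A (S w)) := by
  refine ⟨?_, example_exists δ hδ⟩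
  intro C p₀ hp₀ hC
  obtain ⟨c, hc, d, k, hd, A, W, mW, P, hP, S, hS, hbad⟩ := example_exists δ hδ
  set ε : ℝ := min (1 / 2) (c / (|C| + 1)) with hε
  have hC0 : 0 ≤ |C| := abs_nonneg C
  have hε0 : 0 < ε := by
    rw [hε, lt_min_iff]
    exact ⟨by norm_num, by positivity⟩
  have hε1 : ε < 1 := lt_of_le_of_lt (min_le_left _ _) (by norm_num)
  have hCε : C * ε ≤ c := by
    have h1 : C ≤ |C| + 1 := by linarith [le_abs_self C]
    have h2 : ε ≤ c / (|C| + 1) := min_le_right _ _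
    calc C * ε ≤ (|C| + 1) * ε := mul_le_mul_of_nonneg_right h1 hε0.le
      _ ≤ (|C| + 1) * (c / (|C| + 1)) := mul_le_mul_of_nonneg_left h2 (by positivity)
      _ = c := by field_simp
  obtain ⟨D, hD, hpD, hgood⟩ := hC ε hε0 hε1 d d k 1 le_rfl hd A W mW P hP S (hS ε hε0.le)
  have hDe : D = ∅ := by
    rw [Set.eq_empty_iff_forall_notMem]
    intro w hw
    have h1 := hgood w hw
    have h2 := hbad w
    have h3 : (1 + C * ε) * bestErr A 1 ≤ (1 + c) * bestErr A 1 :=
      mul_le_mul_of_nonneg_right (by linarith) (bestErr_nonneg A 1)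
    linarith
  rw [hDe] at hpD
  simp at hpD
  linarith

end Pool.Agent.Results.MP_082b65_an.ConstantFailureFails
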